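import Pool.Agent.H32.CH.Targets

set_option autoImplicit false
set_option linter.unusedSectionVars false

namespace Pool.Agent.H32.CH.CU

open Finset Pool.Agent.H32.CH
open scoped Classical

/-- CU -/
theorem pf_CU : T_CU := by
  intro V _ G A C C' x hC hC' hx hx'
  have key : ∀ D D' : Finset V, Comp G A D → Comp G A D' → x ∈ D → x ∈ D' → D ∩ D' = D := by
    intro D D' hD hD' hxD hxD'
    refine hD.2.1.2 (D ∩ D') inter_subset_left ⟨x, mem_inter.2 ⟨hxD, hxD'⟩⟩ ?_
    intro a ha y hy hay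
    rw [mem_inter] at ha ⊢
    exact ⟨hy, hD'.2.2 a ha.2 y (hD.1 hy) hay⟩
  have h1 := key C C' hC hC' hx hx'
  have h2 := key C' C hC' hC hx' hx
  rw [inter_comm] at h2
  exact h1.symm.trans h2

end Pool.Agent.H32.CH.CU
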