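import Pool.Agent.H32.CH.Targets

set_option autoImplicit false
set_option linter.unusedSectionVars false

namespace Pool.Agent.H32.CH.D1

open Finset Pool.Agent.H32.CH
open scoped Classical

variable {V : Type} [Fintype V] {G : SimpleGraph V} {A : Finset V}

theorem tok2 (h4 : T_M4) (hd : Deg4 G) (ht : TF G) (he : Ext G A) {k x y : V} (hk : k ∉ A)
    (hx : Tk G A x) (hy : Tk G A y) (hxy : x ≠ y) (hkx : G.Adj x k) (hky : G.Adj y k) :
    dg G Aᶜ k = 0 := by
  have h := h4 V G A hd ht he.1 k hk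
  have h2 : ({x, y} : Finset V) ⊆ A.filter (fun x => dg G A x = 2 ∧ G.Adj k x) := by
    intro z hz
    simp only [mem_insert, mem_singleton] at hz
    rcases hz with rfl | rfl
    · exact mem_filter.2 ⟨hx.1, hx.2, hkx.symm⟩
    · exact mem_filter.2 ⟨hy.1, hy.2, hky.symm⟩
  have h3 := card_le_card h2
  rw [card_pair hxy] at h3
  omega

theorem tok3 (h4 : T_M4) (hd : Deg4 G) (ht : TF G) (he : Ext G A) {k x y z : V} (hk : k ∉ A)
    (hx : Tk G A x) (hy : Tk G A y) (hz : Tk G A z) (hxy : x ≠ y) (hxz : x ≠ z) (hyz : y ≠ z)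
    (hkx : G.Adj x k) (hky : G.Adj y k) (hkz : G.Adj z k) : False := by
  have h := h4 V G A hd ht he.1 k hk
  have h2 : ({x, y, z} : Finset V) ⊆ A.filter (fun x => dg G A x = 2 ∧ G.Adj k x) := by
    intro t ht
    simp only [mem_insert, mem_singleton] at ht
    rcases ht with rfl | rfl | rfl
    · exact mem_filter.2 ⟨hx.1, hx.2, hkx.symm⟩
    · exact mem_filter.2 ⟨hy.1, hy.2, hky.symm⟩
    · exact mem_filter.2 ⟨hz.1, hz.2, hkz.symm⟩
  have h3 := card_le_card h2
  have h5 : ({x, y, z} : Finset V).card = 3 := by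
    rw [card_insert_of_notMem (by simp [hxy, hxz]), card_pair hyz]
  omega

/-- two different tokens cannot both be related to x through the same k -/
theorem same (h3 : T_M3) (h4 : T_M4) (hd : Deg4 G) (ht : TF G) (he : Ext G A) {k x y z : V}
    (hk : k ∉ A) (hx : Tk G A x) (hkx : G.Adj x k) (hy : Tk G A y) (hz : Tk G A z) (hxy : x ≠ y)
    (hxz : x ≠ z) (hyz : y ≠ z) {b c : V} (hb : b ∉ A) (hc : c ∉ A) (hkb : k = b ∨ G.Adj k b)
    (hkc : k = c ∨ G.Adj k c) (hyb : G.Adj y b) (hzc : G.Adj z c) : False := by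
  by_cases h0 : dg G Aᶜ k = 0
  · have e1 : k = b := by
      rcases hkb with h | h
      · exact h
      · exact absurd h ((dg_eq_zero.1 h0) b (by simpa using hb))
    have e2 : k = c := by
      rcases hkc with h | h
      · exact h
      · exact absurd h ((dg_eq_zero.1 h0) c (by simpa using hc))
    subst e1
    subst e2
    exact tok3 h4 hd ht he hk hx hy hz hxy hxz hyz hkx hyb hzc
  · have f1 : G.Adj k b := by
      rcases hkb with h | h
      · subst h
        exact absurd (tok2 h4 hd ht he hk hx hy hxy hkx hyb) h0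
      · exact h
    have f2 : G.Adj k c := by
      rcases hkc with h | h
      · subst h
        exact absurd (tok2 h4 hd ht he hk hx hz hxz hkx hzc) h0
      · exact h
    have hbc : b = c := by
      by_contra hne
      have := dg_ge_two (X := Aᶜ) hne (by simpa using hb) (by simpa using hc) f1 f2
      have := h3 V G A hd he k hk
      omega
    subst hbc
    have hz0 := tok2 h4 hd ht he hb hy hz hyz hyb hzc
    exact (dg_eq_zero.1 hz0) k (by simpa using hk) f1.symm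

theorem pf_D1 (h3 : T_M3) (h4 : T_M4) (h2 : T_M2) : T_D1 := by
  intro V _ G A hd ht he x
  by_contra hcon
  push Not at hcon
  obtain ⟨s, hs, hs3⟩ := exists_subset_card_eq (show 3 ≤ (nb (DG G A) univ x).card from hcon)
  obtain ⟨y₁, y₂, y₃, h12, h13, h23, rfl⟩ := card_eq_three.1 hs3
  have key : ∀ y, y ∈ ({y₁, y₂, y₃} : Finset V) → (DG G A).Adj x y := fun y hy =>
    (mem_nb.1 (hs hy)).2
  have k1 := key y₁ (by simp)
  have k2 := key y₂ (by simp)
  have k3 := key y₃ (by simp)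
  have hx : Tk G A x := k1.2.1
  have hx2 := (h2 V G A hd he.1).1 x hx.1 hx.2
  obtain ⟨a, b, hab, ha, hb, hxa, hxb, hall⟩ := dg_two hx2.1
  have cl : ∀ y, (DG G A).Adj x y → (∃ c, c ∉ A ∧ (a = c ∨ G.Adj a c) ∧ G.Adj y c) ∨
      ∃ c, c ∉ A ∧ (b = c ∨ G.Adj b c) ∧ G.Adj y c := by
    rintro y ⟨_, _, _, e, e', he1, he2, hee, hxe, hye⟩
    rcases hall e (by simpa using he1) hxe with rfl | rfl
    · exact Or.inl ⟨e', he2, hee, hye⟩
    · exact Or.inr ⟨e', he2, hee, hye⟩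
  have ha' : a ∉ A := by simpa using ha
  have hb' : b ∉ A := by simpa using hb
  have s2 : ∀ y z k, y ≠ z → (DG G A).Adj x y → (DG G A).Adj x z → k ∉ A → G.Adj x k →
      (∃ c, c ∉ A ∧ (k = c ∨ G.Adj k c) ∧ G.Adj y c) →
      (∃ c, c ∉ A ∧ (k = c ∨ G.Adj k c) ∧ G.Adj z c) → False := by
    rintro y z k hyz hy hz hk hxk ⟨c, hc, hkc, hyc⟩ ⟨c', hc', hkc', hzc'⟩
    exact same h3 h4 hd ht he hk hx hxk hy.2.2.1 hz.2.2.1 hy.1 hz.1 hyz hc hc' hkc hkc' hyc hzc'
  rcases cl y₁ k1 with c1 | c1 <;> rcases cl y₂ k2 with c2 | c2 <;> rcases cl y₃ k3 with c3 | c3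
  · exact s2 y₁ y₂ a h12 k1 k2 ha' hxa c1 c2
  · exact s2 y₁ y₂ a h12 k1 k2 ha' hxa c1 c2
  · exact s2 y₁ y₃ a h13 k1 k3 ha' hxa c1 c3
  · exact s2 y₂ y₃ b h23 k2 k3 hb' hxb c2 c3
  · exact s2 y₂ y₃ a h23 k2 k3 ha' hxa c2 c3
  · exact s2 y₁ y₃ b h13 k1 k3 hb' hxb c1 c3
  · exact s2 y₁ y₂ b h12 k1 k2 hb' hxb c1 c2
  · exact s2 y₁ y₂ b h12 k1 k2 hb' hxb c1 c2

end Pool.Agent.H32.CH.D1
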