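import Mathlib

/-! MP_aaa807_co: two-colourings of graphs of maximum degree 4 with chromons of order at most 5.
Definitions of the project and basic lemmas on the numbers dg G X v of neighbours of v in X. -/

set_option autoImplicit false
set_option linter.unusedSectionVars false

namespace Pool.Agent.H32.CH

open Finset
open scoped Classical

variable {V : Type} [Fintype V]

/-- the neighbours of v in X -/
noncomputable def nb (G : SimpleGraph V) (X : Finset V) (v : V) : Finset V :=
  X.filter (fun y => G.Adj v y)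

/-- the number of neighbours of v in X -/
noncomputable def dg (G : SimpleGraph V) (X : Finset V) (v : V) : ℕ := (nb G X v).card

/-- maximum degree at most 4 -/
def Deg4 (G : SimpleGraph V) : Prop := ∀ v, dg G univ v ≤ 4

/-- triangle free -/
def TF (G : SimpleGraph V) : Prop := ∀ a b c, G.Adj a b → G.Adj b c → ¬ G.Adj c a

/-- no closed walk of length 5 -/
def NP5 (G : SimpleGraph V) : Prop :=
  ∀ a b c d e, G.Adj a b → G.Adj b c → G.Adj c d → G.Adj d e → ¬ G.Adj e a

/-- no closed walk of length 7 -/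
def NP7 (G : SimpleGraph V) : Prop :=
  ∀ a b c d e f g, G.Adj a b → G.Adj b c → G.Adj c d → G.Adj d e → G.Adj e f → G.Adj f g →
    ¬ G.Adj g a

/-- twice the number of monochromatic edges of the colouring (A, complement of A) -/
noncomputable def cost (G : SimpleGraph V) (A : Finset V) : ℕ :=
  ∑ v ∈ A, dg G A v + ∑ v ∈ Aᶜ, dg G Aᶜ v

/-- A has the fewest monochromatic edges -/
def MinC (G : SimpleGraph V) (A : Finset V) : Prop := ∀ A', cost G A ≤ cost G A'

/-- fewest monochromatic edges and, among these, A largest -/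
def Ext (G : SimpleGraph V) (A : Finset V) : Prop :=
  MinC G A ∧ ∀ A', MinC G A' → A'.card ≤ A.card

/-- C is nonempty and connected (every nonempty subset closed under adjacency in C is C) -/
def Conn (G : SimpleGraph V) (C : Finset V) : Prop :=
  C.Nonempty ∧ ∀ X, X ⊆ C → X.Nonempty → (∀ x ∈ X, ∀ y ∈ C, G.Adj x y → y ∈ X) → X = C

/-- C is a connected component of G[A] -/
def Comp (G : SimpleGraph V) (A C : Finset V) : Prop :=
  C ⊆ A ∧ Conn G C ∧ ∀ x ∈ C, ∀ y ∈ A, G.Adj x y → y ∈ C

/-- problematic component: a cycle of length 1 modulo 6 -/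
def Prob (G : SimpleGraph V) (A Z : Finset V) : Prop :=
  Comp G A Z ∧ (∀ x ∈ Z, dg G A x = 2) ∧ Z.card % 6 = 1

/-- the number of problematic components -/
noncomputable def cn (G : SimpleGraph V) (A : Finset V) : ℕ :=
  ((univ : Finset (Finset V)).filter (fun Z => Prob G A Z)).card

/-- extremal and, among these, with the fewest problematic components -/
def Ext3 (G : SimpleGraph V) (A : Finset V) : Prop :=
  Ext G A ∧ ∀ A', Ext G A' → cn G A ≤ cn G A'

/-- token: a vertex of A with two neighbours in A -/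
def Tk (G : SimpleGraph V) (A : Finset V) (v : V) : Prop := v ∈ A ∧ dg G A v = 2

/-- b is not in A and has a neighbour outside A -/
def K2v (G : SimpleGraph V) (A : Finset V) (b : V) : Prop := b ∉ A ∧ dg G Aᶜ b ≠ 0

/-- T-vertex: a token adjacent to a K2 of the other side -/
def TT (G : SimpleGraph V) (A : Finset V) (v : V) : Prop :=
  Tk G A v ∧ ∃ b, K2v G A b ∧ G.Adj v b

/-- the conflict graph on the tokens: two tokens see a common vertex outside A, or the two ends of an
edge outside A -/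
def DG (G : SimpleGraph V) (A : Finset V) : SimpleGraph V where
  Adj x y := x ≠ y ∧ Tk G A x ∧ Tk G A y ∧
    ∃ b b', b ∉ A ∧ b' ∉ A ∧ (b = b' ∨ G.Adj b b') ∧ G.Adj x b ∧ G.Adj y b'
  symm := ⟨by
    rintro x y ⟨h, hx, hy, b, b', hb, hb', hbb, hxb, hyb⟩
    refine ⟨h.symm, hy, hx, b', b, hb', hb, ?_, hyb, hxb⟩
    rcases hbb with rfl | hbb
    · exact Or.inl rfl
    · exact Or.inr hbb.symm⟩
  loopless := ⟨fun x h => h.1 rfl⟩

/-- S is a good set of flips for the component C: independent, and all pieces have at most 5 vertices -/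
def Good (G : SimpleGraph V) (C S : Finset V) : Prop :=
  S ⊆ C ∧ (∀ x ∈ S, ∀ y ∈ S, ¬ G.Adj x y) ∧ ∀ K, Comp G (C \ S) K → K.card ≤ 5

/-- f enumerates C along a path or cycle: f 0, ..., f (n-1) are distinct, consecutive ones are adjacent,
and there are no other adjacencies except possibly between f 0 and f (n-1) -/
def Enum (G : SimpleGraph V) (C : Finset V) (n : ℕ) (f : ℕ → V) : Prop :=
  (∀ i < n, ∀ j < n, f i = f j → i = j) ∧ C = (range n).image f ∧
    (∀ i, i + 1 < n → G.Adj (f i) (f (i + 1))) ∧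
    ∀ i j, i < j → j < n → G.Adj (f i) (f j) → j = i + 1 ∨ (i = 0 ∧ j = n - 1)

/-- R meets every window in exactly one vertex -/
def Trv {q : ℕ} (w : Fin q → Finset V) (R : Finset V) : Prop := ∀ i, (R ∩ w i).card = 1

/-- w is a system of windows in C: disjoint sets of three tokens -/
def Win (G : SimpleGraph V) (A C : Finset V) {q : ℕ} (w : Fin q → Finset V) : Prop :=
  (∀ i, (w i).card = 3) ∧ (∀ i, w i ⊆ C) ∧ (∀ i, ∀ x ∈ w i, dg G A x = 2) ∧
    ∀ i j, i ≠ j → Disjoint (w i) (w j)

/-! ### Basic lemmas -/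

variable {G : SimpleGraph V} {A X : Finset V} {u v w : V}

theorem mem_nb : w ∈ nb G X v ↔ w ∈ X ∧ G.Adj v w := by simp [nb]

theorem dg_mono {Y : Finset V} (h : X ⊆ Y) (v : V) : dg G X v ≤ dg G Y v :=
  card_le_card (filter_subset_filter _ h)

theorem dg_pos : 0 < dg G X v ↔ ∃ w ∈ X, G.Adj v w := by
  rw [dg, card_pos]
  constructor
  · rintro ⟨w, hw⟩
    exact ⟨w, (mem_nb.1 hw).1, (mem_nb.1 hw).2⟩
  · rintro ⟨w, hw, h⟩
    exact ⟨w, mem_nb.2 ⟨hw, h⟩⟩

theorem dg_eq_zero : dg G X v = 0 ↔ ∀ w ∈ X, ¬ G.Adj v w := by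
  constructor
  · intro h w hw hvw
    have := dg_pos.2 ⟨w, hw, hvw⟩
    omega
  · intro h
    by_contra hne
    obtain ⟨w, hw, hvw⟩ := dg_pos.1 (Nat.pos_of_ne_zero hne)
    exact h w hw hvw

theorem dg_add_compl (G : SimpleGraph V) (A : Finset V) (v : V) :
    dg G A v + dg G Aᶜ v = dg G univ v := by
  unfold dg nb
  rw [← card_union_of_disjoint]
  · congr 1
    ext y
    simp only [mem_union, mem_filter, mem_compl, mem_univ, true_and]
    tauto
  · rw [disjoint_left]
    intro y hy hy'
    simp only [mem_filter, mem_compl] at hy hy'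
    exact hy'.1 hy.1

theorem dg_erase_adj (hv : v ∈ X) (h : G.Adj u v) : dg G (X.erase v) u + 1 = dg G X u := by
  unfold dg nb
  have : (X.erase v).filter (fun y => G.Adj u y) = (X.filter (fun y => G.Adj u y)).erase v := by
    ext y
    simp only [mem_filter, mem_erase]
    tauto
  rw [this]
  exact card_erase_add_one (mem_filter.2 ⟨hv, h⟩)

theorem dg_erase_not (h : ¬ G.Adj u v) : dg G (X.erase v) u = dg G X u := by
  unfold dg nb
  congr 1
  ext y
  simp only [mem_filter, mem_erase]
  constructor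
  · rintro ⟨⟨_, h1⟩, h2⟩
    exact ⟨h1, h2⟩
  · rintro ⟨h1, h2⟩
    refine ⟨⟨?_, h1⟩, h2⟩
    rintro rfl
    exact h h2

theorem dg_erase_self : dg G (X.erase v) v = dg G X v := dg_erase_not (G.loopless.irrefl v)

theorem dg_insert_adj (hv : v ∉ X) (h : G.Adj u v) : dg G (insert v X) u = dg G X u + 1 := by
  have h1 := dg_erase_adj (X := insert v X) (mem_insert_self v X) h
  rw [erase_insert hv] at h1
  omega

theorem dg_insert_not (h : ¬ G.Adj u v) : dg G (insert v X) u = dg G X u := by
  unfold dg nb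
  congr 1
  ext y
  simp only [mem_filter, mem_insert]
  constructor
  · rintro ⟨h1 | h1, h2⟩
    · subst h1
      exact absurd h2 h
    · exact ⟨h1, h2⟩
  · rintro ⟨h1, h2⟩
    exact ⟨Or.inr h1, h2⟩

theorem dg_insert_self : dg G (insert v X) v = dg G X v := dg_insert_not (G.loopless.irrefl v)

theorem compl_erase' (A : Finset V) (v : V) : (A.erase v)ᶜ = insert v Aᶜ := by
  ext y
  simp only [mem_compl, mem_erase, mem_insert]
  tauto

theorem compl_insert' (A : Finset V) (v : V) : (insert v A)ᶜ = Aᶜ.erase v := by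
  ext y
  simp only [mem_compl, mem_erase, mem_insert]
  tauto

/-- two different neighbours in X when dg = 2, and there is no third one -/
theorem dg_two (h : dg G X v = 2) : ∃ a b, a ≠ b ∧ a ∈ X ∧ b ∈ X ∧ G.Adj v a ∧ G.Adj v b ∧
    ∀ c ∈ X, G.Adj v c → c = a ∨ c = b := by
  obtain ⟨a, b, hab, hs⟩ := card_eq_two.1 h
  have ha : a ∈ nb G X v := by rw [hs]; simp
  have hb : b ∈ nb G X v := by rw [hs]; simp
  refine ⟨a, b, hab, (mem_nb.1 ha).1, (mem_nb.1 hb).1, (mem_nb.1 ha).2, (mem_nb.1 hb).2, ?_⟩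
  intro c hc hvc
  have : c ∈ nb G X v := mem_nb.2 ⟨hc, hvc⟩
  rw [hs] at this
  simpa using this

theorem dg_one (h : dg G X v = 1) : ∃ a ∈ X, G.Adj v a ∧ ∀ c ∈ X, G.Adj v c → c = a := by
  obtain ⟨a, hs⟩ := card_eq_one.1 h
  have ha : a ∈ nb G X v := by rw [hs]; simp
  refine ⟨a, (mem_nb.1 ha).1, (mem_nb.1 ha).2, ?_⟩
  intro c hc hvc
  have : c ∈ nb G X v := mem_nb.2 ⟨hc, hvc⟩
  rw [hs] at this
  simpa using this

/-- k different neighbours give dg ≥ k -/
theorem dg_ge_two {a b : V} (hab : a ≠ b) (ha : a ∈ X) (hb : b ∈ X) (h1 : G.Adj v a)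
    (h2 : G.Adj v b) : 2 ≤ dg G X v := by
  have : ({a, b} : Finset V) ⊆ nb G X v := by
    intro y hy
    simp only [mem_insert, mem_singleton] at hy
    rcases hy with rfl | rfl
    · exact mem_nb.2 ⟨ha, h1⟩
    · exact mem_nb.2 ⟨hb, h2⟩
  have h3 := card_le_card this
  rwa [card_pair hab] at h3

theorem dg_ge_three {a b c : V} (hab : a ≠ b) (hac : a ≠ c) (hbc : b ≠ c) (ha : a ∈ X)
    (hb : b ∈ X) (hc : c ∈ X) (h1 : G.Adj v a) (h2 : G.Adj v b) (h3 : G.Adj v c) :
    3 ≤ dg G X v := by
  have : ({a, b, c} : Finset V) ⊆ nb G X v := by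
    intro y hy
    simp only [mem_insert, mem_singleton] at hy
    rcases hy with rfl | rfl | rfl
    · exact mem_nb.2 ⟨ha, h1⟩
    · exact mem_nb.2 ⟨hb, h2⟩
    · exact mem_nb.2 ⟨hc, h3⟩
  have h4 := card_le_card this
  have h5 : ({a, b, c} : Finset V).card = 3 := by
    rw [card_insert_of_notMem (by simp [hab, hac]), card_pair hbc]
  rw [h5] at h4
  exact h4

end Pool.Agent.H32.CH
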