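import Pool.Agent.H32.CH.Targets

/-! Final translation to plain Mathlib language. -/

set_option autoImplicit false
set_option linter.unusedSectionVars false

namespace Pool.Agent.H32.CH

open Finset
open scoped Classical

/-- walks with all vertices of the colour of v are walks of the monochromatic graph -/
theorem reach_iff {V : Type} (G : SimpleGraph V) (c : V → Bool) (v w : V) :
    (∃ p : G.Walk v w, ∀ x ∈ p.support, c x = c v) ↔ (mono G c).Reachable v w := by
  constructor
  · rintro ⟨p, hp⟩
    induction p with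
    | nil => exact SimpleGraph.Reachable.refl _
    | @cons a b d h p ih =>
      have hb : c b = c a := hp b (by simp)
      have hab : (mono G c).Adj a b := ⟨h, hb.symm⟩
      refine (SimpleGraph.Adj.reachable hab).trans (ih ?_)
      intro x hx
      rw [hb]
      exact hp x (by simp [hx])
  · rintro ⟨p⟩
    induction p with
    | nil => exact ⟨SimpleGraph.Walk.nil, by simp⟩
    | @cons a b d h p ih =>
      obtain ⟨p', hp'⟩ := ih
      have hab : G.Adj a b := h.1
      refine ⟨SimpleGraph.Walk.cons hab p', ?_⟩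
      intro x hx
      rw [SimpleGraph.Walk.support_cons] at hx
      rcases List.mem_cons.1 hx with rfl | hx
      · rfl
      · rw [hp' x hx]
        exact h.2.symm

theorem card_eq {V : Type} (G : SimpleGraph V) (c : V → Bool) (v : V) :
    Nat.card {w // ∃ p : G.Walk v w, ∀ x ∈ p.support, c x = c v} =
      Nat.card {w // (mono G c).Reachable v w} := by
  refine Nat.card_congr (Equiv.subtypeEquivRight ?_)
  intro w
  exact reach_iff G c v w

theorem dg_univ_eq {V : Type} [Fintype V] (G : SimpleGraph V) (i : DecidableRel G.Adj) (v : V) :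
    dg G univ v = G.degree v := by
  unfold dg nb
  rw [← SimpleGraph.card_neighborFinset_eq_degree]
  congr 1
  ext y
  simp

theorem first_part (h1 : T_MAIN) (h2 : T_OG) (h3 : T_RE) (V : Type) [Fintype V]
    (G : SimpleGraph V) (i : DecidableRel G.Adj) (hd : ∀ v, G.degree v ≤ 4)
    (ho : ∀ (v : V) (p : G.Walk v v), p.IsCycle → Odd p.length → 9 ≤ p.length) :
    ∃ c : V → Bool, ∀ v, Nat.card {w // ∃ p : G.Walk v w, ∀ x ∈ p.support, c x = c v} ≤ 5 := by
  obtain ⟨a, b, e⟩ := h2 V G ho
  have hd4 : Deg4 G := by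
    intro v
    rw [dg_univ_eq G i v]
    exact hd v
  obtain ⟨A, hA, hB⟩ := h1 V G hd4 a b e
  refine ⟨fun x => decide (x ∈ A), fun v => ?_⟩
  rw [card_eq]
  exact h3 V G A v hA hB

theorem second_part (h : T_LB) (g : ℕ) :
    ∃ (n : ℕ) (G : SimpleGraph (Fin n)) (_ : DecidableRel G.Adj), (∀ v, G.degree v ≤ 4) ∧
      (∀ (v : Fin n) (p : G.Walk v v), p.IsCycle → Odd p.length → g ≤ p.length) ∧
      ∀ c : Fin n → Bool, ∃ v, 4 ≤ Nat.card {w // ∃ p : G.Walk v w, ∀ x ∈ p.support, c x = c v} := by
  obtain ⟨n, G, hd, ho, hc⟩ := h g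
  refine ⟨n, G, fun a b => Classical.propDecidable _, ?_, ?_, ?_⟩
  · intro v
    rw [← dg_univ_eq G _ v]
    exact hd v
  · intro v p _ hp
    exact ho v p hp
  · intro c
    obtain ⟨v, hv⟩ := hc c
    refine ⟨v, ?_⟩
    rw [card_eq]
    exact hv

end Pool.Agent.H32.CH
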