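import Pool.Agent.H32.CH.Defs

/-! Targets of the modules (MP_aaa807_co). -/

set_option autoImplicit false
set_option linter.unusedSectionVars false

namespace Pool.Agent.H32.CH

open Finset
open scoped Classical

/-! ### A. Flips -/

/-- CE: the cost after moving v out of A -/
def T_CE : Prop := ∀ (V : Type) [Fintype V] (G : SimpleGraph V) (A : Finset V) (v : V), v ∈ A →
  cost G (A.erase v) + 2 * dg G A v = cost G A + 2 * dg G Aᶜ v

/-- CI: the cost after moving v into A -/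
def T_CI : Prop := ∀ (V : Type) [Fintype V] (G : SimpleGraph V) (A : Finset V) (v : V), v ∉ A →
  cost G (insert v A) + 2 * dg G Aᶜ v = cost G A + 2 * dg G A v

/-- M1: same-side degrees are at most 2 -/
def T_M1 : Prop := ∀ (V : Type) [Fintype V] (G : SimpleGraph V) (A : Finset V), Deg4 G → MinC G A →
  (∀ v ∈ A, dg G A v ≤ 2) ∧ (∀ v, v ∉ A → dg G Aᶜ v ≤ 2)

/-- M2: vertices of same-side degree 2 can be flipped -/
def T_M2 : Prop := ∀ (V : Type) [Fintype V] (G : SimpleGraph V) (A : Finset V), Deg4 G → MinC G A →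
  (∀ v ∈ A, dg G A v = 2 → dg G Aᶜ v = 2 ∧ MinC G (A.erase v)) ∧
  (∀ v, v ∉ A → dg G Aᶜ v = 2 → dg G A v = 2 ∧ MinC G (insert v A))

/-- M3: outside A there are only K1 and K2 -/
def T_M3 : Prop := ∀ (V : Type) [Fintype V] (G : SimpleGraph V) (A : Finset V), Deg4 G → Ext G A →
  ∀ b, b ∉ A → dg G Aᶜ b ≤ 1

/-- M4: outside degree plus number of tokens is at most 2 -/
def T_M4 : Prop := ∀ (V : Type) [Fintype V] (G : SimpleGraph V) (A : Finset V), Deg4 G → TF G →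
  MinC G A → ∀ b, b ∉ A →
    dg G Aᶜ b + (A.filter (fun x => dg G A x = 2 ∧ G.Adj b x)).card ≤ 2

/-- M5: a token sees at most one K2 -/
def T_M5 : Prop := ∀ (V : Type) [Fintype V] (G : SimpleGraph V) (A : Finset V), Deg4 G → TF G →
  Ext G A → ∀ x b₁ b₂, Tk G A x → K2v G A b₁ → K2v G A b₂ → b₁ ≠ b₂ → G.Adj x b₁ → ¬ G.Adj x b₂

/-- M6: no chain K2 - x₁ - k - x₂ - K2 -/
def T_M6 : Prop := ∀ (V : Type) [Fintype V] (G : SimpleGraph V) (A : Finset V), Deg4 G → TF G →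
  Ext G A → ∀ x₁ x₂ b₁ k b₂, Tk G A x₁ → Tk G A x₂ → x₁ ≠ x₂ → K2v G A b₁ → K2v G A b₂ →
    k ∉ A → b₁ ≠ k → b₂ ≠ k → b₁ ≠ b₂ → ¬ G.Adj b₁ b₂ → G.Adj b₁ x₁ → G.Adj x₁ k → G.Adj k x₂ →
    ¬ G.Adj x₂ b₂

/-- M7: no chain K2 - x₁ - k₁ - x₂ - k₂ - x₃ - K2 with pairwise nonadjacent tokens -/
def T_M7 : Prop := ∀ (V : Type) [Fintype V] (G : SimpleGraph V) (A : Finset V), Deg4 G → TF G →
  Ext G A → ∀ x₁ x₂ x₃ b₁ k₁ k₂ b₂, Tk G A x₁ → Tk G A x₂ → Tk G A x₃ → x₁ ≠ x₂ → x₂ ≠ x₃ →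
    x₁ ≠ x₃ → ¬ G.Adj x₁ x₃ → K2v G A b₁ → K2v G A b₂ → k₁ ∉ A → k₂ ∉ A → k₁ ≠ k₂ →
    b₁ ≠ k₁ → b₂ ≠ k₂ → b₁ ≠ b₂ → ¬ G.Adj b₁ b₂ → G.Adj b₁ x₁ → G.Adj x₁ k₁ → G.Adj k₁ x₂ →
    G.Adj x₂ k₂ → G.Adj k₂ x₃ → ¬ G.Adj x₃ b₂

/-- U: two closers of the two ends u, w of a path -/
def T_U : Prop := ∀ (V : Type) [Fintype V] (G : SimpleGraph V) (A : Finset V), Deg4 G → TF G →
  MinC G A → ∀ u w z b b' h : V, u ∈ A → w ∈ A → u ≠ w → ¬ G.Adj u w → dg G A u = 1 →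
    dg G A w = 1 → Tk G A z → b ∉ A → b' ∉ A → G.Adj b b' → G.Adj b z → G.Adj b u → G.Adj b w →
    h ∉ A → h ≠ b → G.Adj h u → G.Adj h w →
    (K2v G A h ∨ G.Adj h z ∨ ∃ t, Tk G A t ∧ G.Adj h t ∧ t ≠ z ∧ ¬ G.Adj t z) → False

/-! ### B. Components -/

/-- HS: handshake -/
def T_HS : Prop := ∀ (V : Type) [Fintype V] (G : SimpleGraph V) (X : Finset V),
  Even (∑ x ∈ X, dg G X x)

/-- CX: every vertex of A lies in a component -/
def T_CX : Prop := ∀ (V : Type) [Fintype V] (G : SimpleGraph V) (A : Finset V), ∀ x ∈ A,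
  ∃ C, Comp G A C ∧ x ∈ C

/-- CU: two components with a common vertex are equal -/
def T_CU : Prop := ∀ (V : Type) [Fintype V] (G : SimpleGraph V) (A C C' : Finset V) (x : V),
  Comp G A C → Comp G A C' → x ∈ C → x ∈ C' → C = C'

/-- DC: degrees in a component -/
def T_DC : Prop := ∀ (V : Type) [Fintype V] (G : SimpleGraph V) (A C : Finset V) (x : V),
  Comp G A C → x ∈ C → dg G A x = dg G C x

/-- CR: a cycle minus a vertex is connected -/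
def T_CR : Prop := ∀ (V : Type) [Fintype V] (G : SimpleGraph V) (C : Finset V) (z : V),
  Conn G C → (∀ x ∈ C, dg G C x = 2) → z ∈ C → Conn G (C.erase z)

/-- EN: enumeration of a connected set of maximum degree 2 -/
def T_EN : Prop := ∀ (V : Type) [Fintype V] (G : SimpleGraph V) (C : Finset V), Conn G C →
  (∀ x ∈ C, dg G C x ≤ 2) → ∃ f : ℕ → V, Enum G C C.card f

/-- ENC: enumeration of a cycle starting at a given vertex -/
def T_ENC : Prop := ∀ (V : Type) [Fintype V] (G : SimpleGraph V) (C : Finset V) (x : V), Conn G C →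
  (∀ y ∈ C, dg G C y = 2) → x ∈ C →
    3 ≤ C.card ∧ ∃ f : ℕ → V, Enum G C C.card f ∧ f 0 = x ∧ G.Adj (f 0) (f (C.card - 1))

/-! ### C. The exchange and the history -/

/-- E2: the exchange keeps an extremal set extremal -/
def T_E2 : Prop := ∀ (V : Type) [Fintype V] (G : SimpleGraph V) (A : Finset V) (z b : V), Deg4 G →
  Ext G A → Tk G A z → K2v G A b → G.Adj z b → Ext G (insert b (A.erase z))

/-- EX: existence of the extremal sets -/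
def T_EX : Prop := ∀ (V : Type) [Fintype V] (G : SimpleGraph V), ∃ A, Ext3 G A

/-- FA: problematic components after the exchange which do not contain b are old ones -/
def T_FA : Prop := ∀ (V : Type) [Fintype V] (G : SimpleGraph V) (A C : Finset V) (z b : V), Deg4 G →
  TF G → MinC G A → Tk G A z → b ∉ A → G.Adj z b → Prob G (insert b (A.erase z)) C → b ∉ C →
    Prob G A C ∧ z ∉ C

/-- FB: the structure of a problematic component after the exchange which contains b -/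
def T_FB : Prop := ∀ (V : Type) [Fintype V] (G : SimpleGraph V) (A Z' : Finset V) (z b : V),
  Deg4 G → TF G → Ext G A → Tk G A z → K2v G A b → G.Adj z b →
  Prob G (insert b (A.erase z)) Z' → b ∈ Z' →
    Comp G A (Z'.erase b) ∧ z ∉ Z' ∧ 6 ≤ (Z'.erase b).card ∧
    ∃ u w : V, u ∈ Z'.erase b ∧ w ∈ Z'.erase b ∧ u ≠ w ∧ ¬ G.Adj u w ∧ dg G A u = 1 ∧
      dg G A w = 1 ∧ (∀ x ∈ Z'.erase b, x ≠ u → x ≠ w → dg G A x = 2) ∧ G.Adj b u ∧ G.Adj b w ∧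
      ∀ x ∈ A, G.Adj b x → x = z ∨ x = u ∨ x = w

/-- FC: components without a neighbour of b survive the exchange; the old cycle loses z -/
def T_FC : Prop := ∀ (V : Type) [Fintype V] (G : SimpleGraph V) (A Z : Finset V) (z b : V),
  Prob G A Z → z ∈ Z → b ∉ A → (∀ x ∈ Z, G.Adj b x → x = z) →
    Comp G (insert b (A.erase z)) (Z.erase z) ∧
    ∀ C, Comp G A C → C ≠ Z → (∀ x ∈ C, ¬ G.Adj b x) →
      Comp G (insert b (A.erase z)) C ∧ ∀ x ∈ C, dg G (insert b (A.erase z)) x = dg G A x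

/-- F1: exchange at a problematic component -/
def T_F1 : Prop := ∀ (V : Type) [Fintype V] (G : SimpleGraph V) (A : Finset V), Deg4 G → TF G →
  Ext3 G A → ∀ (Z : Finset V) (z b : V), Prob G A Z → z ∈ Z → K2v G A b → G.Adj z b →
    Ext3 G (insert b (A.erase z)) ∧ Comp G (insert b (A.erase z)) (Z.erase z) ∧
    ∃ (P : Finset V) (u w : V), Comp G A P ∧ P ≠ Z ∧ Prob G (insert b (A.erase z)) (insert b P) ∧
      6 ≤ P.card ∧ u ∈ P ∧ w ∈ P ∧ u ≠ w ∧ ¬ G.Adj u w ∧ dg G A u = 1 ∧ dg G A w = 1 ∧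
      (∀ x ∈ P, x ≠ u → x ≠ w → dg G A x = 2) ∧ G.Adj b u ∧ G.Adj b w ∧
      (∀ x ∈ A, G.Adj b x → x = z ∨ x = u ∨ x = w) ∧
      ∀ C, Prob G (insert b (A.erase z)) C ↔ C = insert b P ∨ (Prob G A C ∧ C ≠ Z)

/-- h owns the path R -/
def Own {V : Type} [Fintype V] (G : SimpleGraph V) (A : Finset V) (h : V) (R : Finset V) : Prop :=
  Comp G A R ∧ 6 ≤ R.card ∧ ∃ u w, u ∈ R ∧ w ∈ R ∧ u ≠ w ∧ ¬ G.Adj u w ∧ dg G A u = 1 ∧
    dg G A w = 1 ∧ (∀ x ∈ R, x ≠ u → x ≠ w → dg G A x = 2) ∧ G.Adj h u ∧ G.Adj h w ∧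
    (∃ y, y ≠ u ∧ y ≠ w ∧ G.Adj h y) ∧
    ∀ y, G.Adj h y → y = u ∨ y = w ∨ y ∉ A ∨ dg G A y = 2

/-- tokens adjacent to H -/
def TokH {V : Type} [Fintype V] (G : SimpleGraph V) (A H : Finset V) (a : V) : Prop :=
  Tk G A a ∧ ∃ h ∈ H, G.Adj a h

/-- the invariants of the process -/
def Hist {V : Type} [Fintype V] (G : SimpleGraph V) (A H : Finset V) : Prop :=
  Ext3 G A ∧ (∀ h ∈ H, h ∉ A) ∧
  (∀ Z, Prob G A Z → ∀ a ∈ Z, ∀ a' ∈ Z, TokH G A H a → TokH G A H a' → a = a') ∧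
  (∀ h ∈ H, ∃ R, Own G A h R) ∧
  ∀ C, Comp G A C → ∀ a ∈ C, TokH G A H a → Prob G A C ∨ ∃ h ∈ H, Own G A h C

/-- ST: one step of the process -/
def T_ST : Prop := ∀ (V : Type) [Fintype V] (G : SimpleGraph V) (A H Z : Finset V), Deg4 G → TF G →
  Hist G A H → Prob G A Z → (∀ f ∈ Z, ∃ z ∈ Z, TT G A z ∧ z ≠ f ∧ ¬ G.Adj f z) →
    ∃ A' H', Hist G A' H' ∧ H.card < H'.card

/-- T1: an extremal state in which the T-vertices of each problematic component lie close together -/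
def T_T1 : Prop := ∀ (V : Type) [Fintype V] (G : SimpleGraph V), Deg4 G → TF G →
  ∃ A, Ext3 G A ∧ ∀ Z, Prob G A Z → ∃ f ∈ Z, ∀ z ∈ Z, TT G A z → z = f ∨ G.Adj f z

/-! ### D. Windows: arithmetic -/

/-- good sets of positions on a cycle of length n -/
def CG (n : ℕ) (s : Finset ℕ) : Prop :=
  s ⊆ range n ∧ (∀ i ∈ s, (i + 1) % n ∉ s) ∧ ∀ a < n, ∃ i < 6, (a + i) % n ∈ s

/-- good sets of positions on a path with n vertices -/
def PG (n : ℕ) (s : Finset ℕ) : Prop :=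
  s ⊆ range n ∧ (∀ i ∈ s, i + 1 ∉ s) ∧ ∀ a, a + 6 ≤ n → ∃ i ∈ s, a ≤ i ∧ i < a + 6

/-- windows of positions -/
def CW (n q : ℕ) (w : Fin q → Finset ℕ) : Prop :=
  (∀ i, (w i).card = 3) ∧ (∀ i, w i ⊆ range n) ∧ ∀ i j, i ≠ j → Disjoint (w i) (w j)

/-- there are windows such that every transversal with the property Q has a good subset -/
def CSys (n : ℕ) (Q : Finset ℕ → Prop) : Prop :=
  ∃ (q : ℕ) (w : Fin q → Finset ℕ), CW n q w ∧
    ∀ r : Finset ℕ, r ⊆ range n → (∀ i, (r ∩ w i).card = 1) → Q r → ∃ s, s ⊆ r ∧ CG n s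

/-- COR: positions P 0 < ... < P (k-1) on the cycle of length n, some indices O droppable -/
def T_COR : Prop := ∀ (n k : ℕ) (P : ℕ → ℕ) (O : ℕ → Prop), 2 ≤ k → (∀ i < k, P i < n) →
  (∀ i, i + 1 < k → P i < P (i + 1) ∧ P (i + 1) ≤ P i + 6) → P 0 + n ≤ P (k - 1) + 6 →
  (∀ i, i + 1 < k → O i → ¬ O (i + 1)) → ¬ (O (k - 1) ∧ O 0) →
  (∀ i, i + 1 < k → P (i + 1) = P i + 1 → O i ∨ O (i + 1)) →
  (P 0 + n = P (k - 1) + 1 → O (k - 1) ∨ O 0) →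
  (∀ i, i + 2 < k → O (i + 1) → (P (i + 1) = P i + 1 ∨ P (i + 2) = P (i + 1) + 1) →
    P (i + 2) ≤ P i + 6) →
  (O 0 → (P 0 + n = P (k - 1) + 1 ∨ P 1 = P 0 + 1) → P 1 + n ≤ P (k - 1) + 6) →
  (O (k - 1) → (P (k - 1) = P (k - 2) + 1 ∨ P 0 + n = P (k - 1) + 1) →
    P 0 + n ≤ P (k - 2) + 6) →
    ∃ s, s ⊆ (range k).image P ∧ CG n s

def T_W0 : Prop := ∀ m : ℕ, 1 ≤ m → CSys (6 * m) (fun _ => True)
def T_W2 : Prop := ∀ m : ℕ, 1 ≤ m → CSys (6 * m + 2) (fun _ => True)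
def T_W3 : Prop := ∀ m : ℕ, 1 ≤ m → CSys (6 * m + 3) (fun _ => True)
def T_W4 : Prop := ∀ m : ℕ, 1 ≤ m → CSys (6 * m + 4) (fun _ => True)
def T_W5 : Prop := ∀ m : ℕ, 1 ≤ m → CSys (6 * m + 5) (fun _ => True)

/-- W1: for n = 6m+1 only the transversal 2,3,8,9,14,15,... can fail -/
def T_W1 : Prop := ∀ m : ℕ, 1 ≤ m →
  CSys (6 * m + 1) (fun r => ∃ j < m, 6 * j + 2 ∉ r ∨ 6 * j + 3 ∉ r)

/-- ROT: one forbidden pair at distance 1, 5, 6 or 7 is enough -/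
def T_ROT : Prop := ∀ m : ℕ, 2 ≤ m → ∀ p d : ℕ, (d = 1 ∨ d = 5 ∨ d = 6 ∨ d = 7) →
  p + d < 6 * m + 1 → CSys (6 * m + 1) (fun r => ¬ (p ∈ r ∧ p + d ∈ r))

/-- WPA: windows on paths -/
def T_WPA : Prop := ∀ n : ℕ, 6 ≤ n → ∃ (q : ℕ) (w : Fin q → Finset ℕ), CW n q w ∧
  (∀ i, ∀ x ∈ w i, 1 ≤ x ∧ x + 2 ≤ n) ∧
  ∀ r : Finset ℕ, r ⊆ range n → (∀ i, (r ∩ w i).card = 1) → ∃ s, s ⊆ r ∧ PG n s

/-! ### E. Windows: components -/

/-- GP: good positions on a path give a good set -/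
def T_GP : Prop := ∀ (V : Type) [Fintype V] (G : SimpleGraph V) (C : Finset V) (n : ℕ) (f : ℕ → V)
  (s : Finset ℕ), Enum G C n f → (3 ≤ n → ¬ G.Adj (f 0) (f (n - 1))) → PG n s →
    Good G C (s.image f)

/-- GC: good positions on a cycle give a good set -/
def T_GC : Prop := ∀ (V : Type) [Fintype V] (G : SimpleGraph V) (C : Finset V) (n : ℕ) (f : ℕ → V)
  (s : Finset ℕ), 3 ≤ n → Enum G C n f → G.Adj (f 0) (f (n - 1)) → CG n s → Good G C (s.image f)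

/-- WP: windows on a path component -/
def T_WP : Prop := ∀ (V : Type) [Fintype V] (G : SimpleGraph V) (A C : Finset V), Comp G A C →
  (∀ x ∈ C, dg G A x ≤ 2) → (∃ x ∈ C, dg G A x ≠ 2) → 6 ≤ C.card →
    ∃ (q : ℕ) (w : Fin q → Finset V), Win G A C w ∧
      ∀ R, Trv w R → ∃ S, S ⊆ R ∧ Good G C S

/-- WC: windows on a cycle component which is not problematic -/
def T_WC : Prop := ∀ (V : Type) [Fintype V] (G : SimpleGraph V) (A C : Finset V), Comp G A C →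
  (∀ x ∈ C, dg G A x = 2) → 6 ≤ C.card → C.card % 6 ≠ 1 →
    ∃ (q : ℕ) (w : Fin q → Finset V), Win G A C w ∧
      ∀ R, Trv w R → ∃ S, S ⊆ R ∧ Good G C S

/-- WX: windows on a problematic component with one forbidden pair -/
def T_WX : Prop := ∀ (V : Type) [Fintype V] (G : SimpleGraph V) (A C : Finset V) (f : ℕ → V),
  Comp G A C → (∀ x ∈ C, dg G A x = 2) → 13 ≤ C.card → C.card % 6 = 1 → Enum G C C.card f →
  G.Adj (f 0) (f (C.card - 1)) → ∀ p d : ℕ, (d = 1 ∨ d = 5 ∨ d = 6 ∨ d = 7) → p + d < C.card →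
    ∃ (q : ℕ) (w : Fin q → Finset V), Win G A C w ∧
      ∀ R, Trv w R → ¬ (f p ∈ R ∧ f (p + d) ∈ R) → ∃ S, S ⊆ R ∧ Good G C S

/-- N7: problematic components have at least 13 vertices -/
def T_N7 : Prop := ∀ (V : Type) [Fintype V] (G : SimpleGraph V) (A Z : Finset V), NP7 G →
  Prob G A Z → 13 ≤ Z.card

/-! ### F. The conflict graph -/

/-- D1: maximum degree 2 -/
def T_D1 : Prop := ∀ (V : Type) [Fintype V] (G : SimpleGraph V) (A : Finset V), Deg4 G → TF G →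
  Ext G A → ∀ x, dg (DG G A) univ x ≤ 2

/-- D2: a T-vertex has at most one neighbour which is a T-vertex -/
def T_D2 : Prop := ∀ (V : Type) [Fintype V] (G : SimpleGraph V) (A : Finset V), Deg4 G → TF G →
  NP5 G → Ext G A → ∀ x y z, TT G A x → TT G A y → TT G A z → (DG G A).Adj x y →
    (DG G A).Adj x z → y = z

/-- D3: a vertex which is not a T-vertex and has two neighbours has one which is not a T-vertex -/
def T_D3 : Prop := ∀ (V : Type) [Fintype V] (G : SimpleGraph V) (A : Finset V), Deg4 G → TF G →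
  NP5 G → NP7 G → Ext G A → ∀ x y z, ¬ TT G A x → y ≠ z → (DG G A).Adj x y → (DG G A).Adj x z →
    ¬ TT G A y ∨ ¬ TT G A z

/-- VB: the other side after the flips -/
def T_VB : Prop := ∀ (V : Type) [Fintype V] (G : SimpleGraph V) (A S : Finset V)
  (M : SimpleGraph V), Deg4 G → TF G → Ext G A → S ⊆ A → (∀ x ∈ S, dg G A x = 2) →
  (∀ x ∈ S, ∀ y ∈ S, ¬ G.Adj x y) →
  (∀ x ∈ S, ∀ y ∈ S, (DG G A).Adj x y → M.Adj x y) →
  (∀ x y, M.Adj x y → ¬ TT G A x ∧ ¬ TT G A y) → (∀ x y z, M.Adj x y → M.Adj x z → y = z) →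
    ∀ K, Comp G (Aᶜ ∪ S) K → K.card ≤ 5

/-! ### G. Graphs of maximum degree 2 -/

/-- every nonempty set has a vertex with at most one neighbour in the set -/
def Peel {V : Type} (F : SimpleGraph V) : Prop :=
  ∀ X : Finset V, X.Nonempty → ∃ v ∈ X, dg F X v ≤ 1

/-- ADD: one more edge -/
def T_ADD : Prop := ∀ (V : Type) [Fintype V] (F : SimpleGraph V) (c d₁ d₂ : V),
  (∀ v, dg F univ v ≤ 2) → Peel F → c ≠ d₁ → c ≠ d₂ → d₁ ≠ d₂ → dg F univ c ≤ 1 →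
  dg F univ d₁ ≤ 1 → dg F univ d₂ ≤ 1 →
    Peel (F ⊔ SimpleGraph.edge c d₁) ∨ Peel (F ⊔ SimpleGraph.edge c d₂)

/-- SEQ: one edge at each of finitely many disjoint places -/
def T_SEQ : Prop := ∀ (V ι : Type) [Fintype V] [Fintype ι] (F : SimpleGraph V) (g : ι × Fin 3 → V),
  (∀ v, dg F univ v ≤ 2) → Peel F → Function.Injective g → (∀ x, dg F univ (g x) ≤ 1) →
    ∃ F' : SimpleGraph V, F ≤ F' ∧ (∀ v, dg F' univ v ≤ 2) ∧ Peel F' ∧
      ∀ i, F'.Adj (g (i, 0)) (g (i, 1)) ∨ F'.Adj (g (i, 0)) (g (i, 2))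

/-- MAT: a maximal matching of D[N] whose free vertices have different colours -/
def T_MAT : Prop := ∀ (V K : Type) [Fintype V] [Fintype K] (D : SimpleGraph V) (N : Finset V)
  (κ : V → K), (∀ v ∈ N, dg D N v ≤ 2) → (∀ k, (N.filter (fun x => κ x = k)).card ≤ 2) →
    ∃ M : SimpleGraph V, M ≤ D ∧ (∀ x y, M.Adj x y → x ∈ N ∧ y ∈ N) ∧
      (∀ x y z, M.Adj x y → M.Adj x z → y = z) ∧
      (∀ x ∈ N, ∀ y ∈ N, D.Adj x y → (∃ z, M.Adj x z) ∨ ∃ z, M.Adj y z) ∧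
      ∀ x ∈ N, ∀ y ∈ N, (∀ z, ¬ M.Adj x z) → (∀ z, ¬ M.Adj y z) → dg D N x ≠ 0 →
        dg D N y ≠ 0 → κ x = κ y → x = y

/-- GT: the graph lemma -/
def T_GT : Prop := ∀ (V ι : Type) [Fintype V] [Fintype ι] (D : SimpleGraph V) (T : Finset V)
  (s : ι × Fin 10 → V), (∀ v, dg D univ v ≤ 2) → (∀ t ∈ T, dg D T t ≤ 1) →
  (∀ v, v ∉ T → dg D univ v = 2 → dg D Tᶜ v ≠ 0) → Function.Injective s → (∀ x, s x ∉ T) →
    ∃ M F : SimpleGraph V, M ≤ D ∧ D ≤ F ⊔ M ∧ (∀ x y, M.Adj x y → x ∉ T ∧ y ∉ T) ∧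
      (∀ x y z, M.Adj x y → M.Adj x z → y = z) ∧ (∀ v, dg F univ v ≤ 2) ∧ Peel F ∧
      ∀ i, ∃ j k : Fin 10, ((k : ℕ) = j + 1 ∨ (k : ℕ) = j + 5 ∨ (k : ℕ) = j + 6 ∨
        (k : ℕ) = j + 7) ∧ F.Adj (s (i, j)) (s (i, k))

/-! ### H. Assembly -/

/-- FSW: Fleischner-Stiebitz for classes inside V: a transversal which is independent in F -/
def T_FSW : Prop := ∀ (V I : Type) [Fintype V] [Fintype I] (F : SimpleGraph V) (w : I → Finset V),
  (∀ v, dg F univ v ≤ 2) → Peel F → (∀ i, (w i).card = 3) → (∀ i j, i ≠ j → Disjoint (w i) (w j)) →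
    ∃ R : Finset V, (∀ i, (R ∩ w i).card = 1) ∧ ∀ x ∈ R, ∀ y ∈ R, ¬ F.Adj x y

/-- SEL: the set of flips -/
def T_SEL : Prop := ∀ (V : Type) [Fintype V] (G : SimpleGraph V) (A : Finset V), Deg4 G → TF G →
  NP5 G → NP7 G → Ext G A → (∀ Z, Prob G A Z → ∃ f ∈ Z, ∀ z ∈ Z, TT G A z → z = f ∨ G.Adj f z) →
    ∃ (S : Finset V) (M : SimpleGraph V), S ⊆ A ∧ (∀ x ∈ S, dg G A x = 2) ∧
      (∀ x ∈ S, ∀ y ∈ S, ¬ G.Adj x y) ∧ (∀ K, Comp G (A \ S) K → K.card ≤ 5) ∧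
      (∀ x ∈ S, ∀ y ∈ S, (DG G A).Adj x y → M.Adj x y) ∧
      (∀ x y, M.Adj x y → ¬ TT G A x ∧ ¬ TT G A y) ∧ ∀ x y z, M.Adj x y → M.Adj x z → y = z

/-- the monochromatic graph of a colouring -/
def mono {V : Type} (G : SimpleGraph V) (c : V → Bool) : SimpleGraph V where
  Adj u v := G.Adj u v ∧ c u = c v
  symm := ⟨fun _ _ h => ⟨h.1.symm, h.2.symm⟩⟩
  loopless := ⟨fun v h => G.loopless.irrefl v h.1⟩

/-- MAIN: all chromons have at most 5 vertices -/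
def T_MAIN : Prop := ∀ (V : Type) [Fintype V] (G : SimpleGraph V), Deg4 G → TF G → NP5 G → NP7 G →
  ∃ A : Finset V, (∀ K, Comp G A K → K.card ≤ 5) ∧ ∀ K, Comp G Aᶜ K → K.card ≤ 5

/-- OG: from cycles to closed walks of length 3, 5, 7 -/
def T_OG : Prop := ∀ (V : Type) [Fintype V] (G : SimpleGraph V),
  (∀ (v : V) (p : G.Walk v v), p.IsCycle → Odd p.length → 9 ≤ p.length) → TF G ∧ NP5 G ∧ NP7 G

/-- RE: components and reachability -/
def T_RE : Prop := ∀ (V : Type) [Fintype V] (G : SimpleGraph V) (A : Finset V) (v : V),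
  (∀ K, Comp G A K → K.card ≤ 5) → (∀ K, Comp G Aᶜ K → K.card ≤ 5) →
    Nat.card {w // (mono G (fun x => decide (x ∈ A))).Reachable v w} ≤ 5

/-- LB: large odd girth and not [2,3]-colourable -/
def T_LB : Prop := ∀ g : ℕ, ∃ (n : ℕ) (G : SimpleGraph (Fin n)), Deg4 G ∧
  (∀ (v : Fin n) (p : G.Walk v v), Odd p.length → g ≤ p.length) ∧
  ∀ c : Fin n → Bool, ∃ v, 4 ≤ Nat.card {w // (mono G c).Reachable v w}

end Pool.Agent.H32.CH
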